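import Pool.Agent.H10.Gr5

namespace Pool.Agent.Results.MP_7c306c_al.Yes

/-- The Grassmann algebra of the vector space with countably infinite basis `e_0, e_1, ...`. -/
abbrev Gr (F : Type) [Field F] := ExteriorAlgebra F (ℕ →₀ F)

/-- The generator `e_i`. -/
noncomputable def gen (F : Type) [Field F] (i : ℕ) : Gr F :=
  ExteriorAlgebra.ι F (Finsupp.single i (1 : F))

/-- `A0 ⊕ A1` is a `Z_2`-grading of the Grassmann algebra. -/
def IsGrading (F : Type) [Field F] (A0 A1 : Submodule F (Gr F)) : Prop :=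
  IsCompl A0 A1 ∧ (∀ x ∈ A0, ∀ y ∈ A0, x * y ∈ A0) ∧ (∀ x ∈ A0, ∀ y ∈ A1, x * y ∈ A1) ∧
    (∀ x ∈ A1, ∀ y ∈ A0, x * y ∈ A1) ∧ (∀ x ∈ A1, ∀ y ∈ A1, x * y ∈ A0)

/-- Every generator is homogeneous. -/
def IsHomogeneous (F : Type) [Field F] (B0 B1 : Submodule F (Gr F)) : Prop :=
  ∀ i, gen F i ∈ B0 ∨ gen F i ∈ B1

/-- Every `Z_2`-grading of the infinite Grassmann algebra over a field of characteristic not two
is graded isomorphic to a homogeneous grading. -/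
theorem result (F : Type) [Field F] (h2 : (2 : F) ≠ 0) (A0 A1 : Submodule F (Gr F))
    (hA : IsGrading F A0 A1) :
    ∃ B0 B1 : Submodule F (Gr F), IsGrading F B0 B1 ∧ IsHomogeneous F B0 B1 ∧
      ∃ f : Gr F ≃ₐ[F] Gr F, (∀ x ∈ A0, f x ∈ B0) ∧ (∀ x ∈ A1, f x ∈ B1) := by
  obtain ⟨hc, h00, h01, h10, h11⟩ := hA
  let t : Gr F →ₗ[F] Gr F := LinearMap.ofIsCompl hc A0.subtype (-A1.subtype)
  have t0 : ∀ x ∈ A0, t x = x := fun x hx => LinearMap.ofIsCompl_apply_left hc (u := ⟨x, hx⟩)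
  have t1 : ∀ x ∈ A1, t x = -x := fun x hx => LinearMap.ofIsCompl_apply_right hc (v := ⟨x, hx⟩)
  have dec : ∀ x : Gr F, ∃ a ∈ A0, ∃ c ∈ A1, a + c = x := fun x =>
    Submodule.mem_sup.1 (by rw [hc.sup_eq_top]; trivial)
  have tmul : ∀ x y, t (x * y) = t x * t y := by
    intro x y
    obtain ⟨a, ha, c, hc', rfl⟩ := dec x
    obtain ⟨a', ha', c', hc'', rfl⟩ := dec y
    rw [add_mul, mul_add, mul_add, map_add, map_add, map_add, map_add, map_add, t0 _ (h00 a ha a' ha'),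
      t1 _ (h01 a ha c' hc''), t1 _ (h10 c hc' a' ha'), t0 _ (h11 c hc' c' hc''), t0 a ha, t0 a' ha',
      t1 c hc', t1 c' hc'']
    noncomm_ring
  have tt : ∀ x, t (t x) = x := by
    intro x
    obtain ⟨a, ha, c, hc', rfl⟩ := dec x
    rw [map_add, t0 a ha, t1 c hc', map_add, map_neg, t0 a ha, t1 c hc', neg_neg]
  have tone : t 1 = 1 := by
    have := tmul 1 (t 1)
    rw [one_mul, tt, mul_one] at this
    exact this.symm
  let u : Gr F →ₐ[F] Gr F := AlgHom.ofLinearMap t tone tmul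
  let φ : Gr F ≃ₐ[F] Gr F := AlgEquiv.ofAlgHom u u (AlgHom.ext tt) (AlgHom.ext tt)
  obtain ⟨ψ, hψ⟩ := Pool.Agent.H10.Gr.main h2 φ (AlgEquiv.ext tt)
  have m0 : ∀ x, t x = x → x ∈ A0 := by
    intro x hx
    obtain ⟨a, ha, c, hc', rfl⟩ := dec x
    rw [map_add, t0 a ha, t1 c hc'] at hx
    have := Pool.Agent.H10.Gr.two_cancel h2 (neg_eq_iff_add_eq_zero.1 (add_left_cancel hx))
    simpa [this] using ha
  have m1 : ∀ x, t x = -x → x ∈ A1 := by
    intro x hx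
    obtain ⟨a, ha, c, hc', rfl⟩ := dec x
    rw [map_add, t0 a ha, t1 c hc', neg_add] at hx
    have := Pool.Agent.H10.Gr.two_cancel h2 (eq_neg_iff_add_eq_zero.1 (add_right_cancel hx))
    simpa [this] using hc'
  refine ⟨A0.comap ψ.toLinearMap, A1.comap ψ.toLinearMap,
    ⟨(Submodule.orderIsoMapComap ψ.toLinearEquiv).symm.isCompl hc, ?_, ?_, ?_, ?_⟩, fun i => ?_,
    ψ.symm, fun x hx => by simpa using hx, fun x hx => by simpa using hx⟩
  · intro x hx y hy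
    exact (by rw [map_mul]; exact h00 _ hx _ hy : ψ (x * y) ∈ A0)
  · intro x hx y hy
    exact (by rw [map_mul]; exact h01 _ hx _ hy : ψ (x * y) ∈ A1)
  · intro x hx y hy
    exact (by rw [map_mul]; exact h10 _ hx _ hy : ψ (x * y) ∈ A1)
  · intro x hx y hy
    exact (by rw [map_mul]; exact h11 _ hx _ hy : ψ (x * y) ∈ A0)
  · exact (hψ i).imp (m0 _) (m1 _)

end Pool.Agent.Results.MP_7c306c_al.Yes
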